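import Mathlib
import Pool.Agent.N485.BT.Crit

/-! # MP_5251ca_al: supramenable groups and quasi-isometrically embedded binary trees

`SupramenableM G`: for every nonempty `A` there is a finitely additive left-invariant measure on all
subsets of `G`, with values in `[0, ∞]`, that gives `A` measure one.
`ExpBounded G`: exponentially bounded. `SubexpGrowth S`: the same for one finite set `S`.
`QIEmb (wordDist S) f`: `f` is a quasi-isometric embedding of the infinite rooted binary tree into the
group with the word metric of `S`.

1. A finitely generated group is supramenable if and only if the binary tree has no
   quasi-isometric embedding into it.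
2. So Q1 holds if and only if every finitely generated group of exponential growth contains a
   quasi-isometrically embedded binary tree.  The last statement is a question of Shalom (problem
   MP_b0184e_gt), there for coarse embeddings, which is equivalent.
3. A closure property that the class of the exponentially bounded groups is known to have: if
   `π` is a homomorphism to a supramenable group whose kernel has subexponential relative growth,
   then its domain is supramenable.  In particular the product of a supramenable group with an
   exponentially bounded group is supramenable. -/

set_option autoImplicit false

namespace Pool.Agent.Results.MP_5251ca_al.TreeCriterion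

open Pool.Agent.N485.BT

theorem result :
    (∀ (G : Type) [Group G] (S : Finset G), Subgroup.closure (S : Set G) = ⊤ →
      (SupramenableM G ↔ ¬ ∃ f : List Bool → G, QIEmb (wordDist S) f)) ∧
    ((∀ (G : Type) [Group G], SupramenableM G → ExpBounded G) ↔
      (∀ (G : Type) [Group G] (S : Finset G), Subgroup.closure (S : Set G) = ⊤ →
        ¬ SubexpGrowth S → ∃ f : List Bool → G, QIEmb (wordDist S) f)) ∧
    (∀ (Γ Q : Type) [Group Γ] [Group Q] (π : Γ →* Q),
      SubexpKer π → SupramenableM Q → SupramenableM Γ) ∧
    (∀ (G H : Type) [Group G] [Group H],
      SupramenableM G → ExpBounded H → SupramenableM (G × H)) :=
  ⟨fun _ _ S hS => fg_criterion S hS, q1_iff,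
    fun _ _ _ _ π h hQ => supramenable_of_kernel π h hQ,
    fun _ _ _ _ hG hH => supramenable_prod hG hH⟩

end Pool.Agent.Results.MP_5251ca_al.TreeCriterion
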